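import Pool.Agent.H.MP_e16c79_al.HS.Fin
import Pool.Agent.H.MP_e16c79_al.HS.Bridge

/-!
# Hermitian Jordan rings of bounded nil index are solvable in every characteristic `p > n`
-/

namespace Pool.Agent.Results.MP_e16c79_al.Hermitian

open Pool.Agent.H.MP_e16c79_al

/-- Let `A` be an associative ring with involution (with or without `1`), `J` a commutative ring and
`φ : J → A` an additive map with `2 φ (x y) = φ x φ y + φ y φ x` whose values are symmetric and include
all `a + a*`, `a ∈ A`. Let `n ≥ 1` and suppose that the `n`-th power of every element of `J` is zero.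
Then every product of `3 * 7 ^ (n - 1)` elements of `A` is killed by a power of `2 * n!`. If `φ` is
injective and `J` has no `2 * n!`-torsion (for example if `J` is torsion-free, or has prime
characteristic `p > n`, `p` odd), then the derived series of `J` satisfies `D (3 * n - 1) = 0`. -/
theorem result (n : ℕ) (hn : 1 ≤ n) (J : Type*) [NonUnitalNonAssocCommRing J]
    (hnil : ∀ a : J, (fun x => a * x)^[n - 1] a = 0)
    (A : Type*) [NonUnitalRing A] [StarRing A] (φ : J →+ A)
    (hmul : ∀ x y, 2 • φ (x * y) = φ x * φ y + φ y * φ x)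
    (hsym : ∀ x, star (φ x) = φ x) (htr : ∀ a : A, ∃ x, φ x = a + star a) :
    (∀ (a : A) (l : List A), l.length = 3 * 7 ^ (n - 1) - 1 →
      ∃ k : ℕ, ((2 * n.factorial) ^ k) • l.foldl (· * ·) a = 0) ∧
    ((∀ a : J, (2 * n.factorial) • a = 0 → a = 0) → Function.Injective φ →
      ∀ D : ℕ → AddSubgroup J, D 0 = ⊤ →
      (∀ i, D (i + 1) = AddSubgroup.closure {x : J | ∃ a ∈ D i, ∃ b ∈ D i, x = a * b}) →
      D (3 * n - 1) = ⊥) :=
  HS.fin (fun _ _ _ _ _ _ hn h _ hx _ hy _ hz _ hw _ ha _ hb _ hc =>
    HS.core hn h hx hy hz hw ha hb hc) n hn hnil φ hmul hsym htr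

end Pool.Agent.Results.MP_e16c79_al.Hermitian
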