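import Pool.Agent.H.MP_e16c79_al.IS.BlkFin
import Pool.Agent.H.MP_e16c79_al.TQ.Fin

/-!
# Images of special Jordan rings, quotients of subalgebras of Albert algebras, subdirect products
-/

namespace Pool.Agent.Results.MP_e16c79_al.ImagesCubic

open Pool.Agent.H.MP_e16c79_al

/-- Let `n ≥ 1` and let `J` be a commutative Jordan ring in which the `n`-th power of every element
is zero. Let `π : S → J` be a surjective homomorphism of commutative rings and `φ : S → A` an
additive map to an associative ring with `2 φ (x y) = φ x φ y + φ y φ x`. Let `F` be a commutative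
ring, `B` a commutative `F`-algebra with `1` (not assumed associative or Jordan) and `T : B → F` a
linear form with `T ((x y) z) = T (x (y z))`, such that every `x` in `B` satisfies the generic cubic
equation
`6 x ^ 3 - 6 T(x) x ^ 2 + 3 (T(x) ^ 2 - T(x ^ 2)) x = (T(x) ^ 3 - 3 T(x) T(x ^ 2) + 2 T(x ^ 3)) 1`
(for example an Albert algebra over `F` with its generic trace), and let `f : S → B` be a ring
homomorphism. Let `D` be the derived series of `J` and `k = 27 + (n - 4) * (n + 9)` (with
`n - 4 = 0` for `n < 4`). Then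

* every `x` in `D k` has a multiple `(2 * n!) ^ m * x` of the form `π s` with `φ s = 0` and
  `f s` in the `F`-span of `f (ker π)`;
* if `J` has no `2 * n!`-torsion (for example `J` torsion-free, or of prime characteristic `p > n`,
  `p` odd) and if `φ s = 0` and `f s ∈ F f (ker π)` imply `π s = 0`, for `s` in `S`, then `J` is
  solvable: `D k = 0`, and `D (n * ⌈log₂ (n + 2)⌉ + (2 * n - 1)) = 0` if `π` is injective.

For `B = 0` and `φ` injective, `J` is any homomorphic image of a special Jordan ring. For `A = 0`,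
`J` is any quotient of a subring `S` of `B` by an ideal `I` with `I = S ∩ F I`; in particular,
any quotient `C / L` of an `F`-subalgebra `C` of `B` by an `F`-ideal `L` of `C`, and (with
`f : S → C` the inverse image of a subring of `C / L`) any subring of such a quotient. -/
theorem result (n : ℕ) (hn : 1 ≤ n) (J : Type*) [NonUnitalNonAssocCommRing J] [IsCommJordan J]
    (hnil : ∀ a : J, (fun x => a * x)^[n - 1] a = 0)
    (S : Type*) [NonUnitalNonAssocCommRing S] (π : S →ₙ+* J) (hπ : Function.Surjective π)
    (A : Type*) [NonUnitalRing A] (φ : S →+ A)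
    (hφ : ∀ x y, 2 • φ (x * y) = φ x * φ y + φ y * φ x)
    (F : Type*) [CommRing F] (B : Type*) [NonAssocCommRing B] [Module F B]
    [IsScalarTower F B B] (T : B →ₗ[F] F)
    (hT : ∀ x y z : B, T (x * y * z) = T (x * (y * z)))
    (hcubic : ∀ x : B, (6 : F) • (x * (x * x)) - (6 * T x) • (x * x) +
      (3 * (T x ^ 2 - T (x * x))) • x =
      (T x ^ 3 - 3 * T x * T (x * x) + 2 * T (x * (x * x))) • 1)
    (f : S →ₙ+* B)
    (D : ℕ → AddSubgroup J) (hD0 : D 0 = ⊤)
    (hDs : ∀ i, D (i + 1) = AddSubgroup.closure {x : J | ∃ a ∈ D i, ∃ b ∈ D i, x = a * b}) :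
    (∀ x ∈ D (27 + (n - 4) * (n + 9)), ∃ (m : ℕ) (s : S), φ s = 0 ∧
      f s ∈ Submodule.span F (f '' {t | π t = 0}) ∧ π s = ((2 * n.factorial) ^ m) • x) ∧
    ((∀ a : J, (2 * n.factorial) • a = 0 → a = 0) →
      (∀ s, φ s = 0 → f s ∈ Submodule.span F (f '' {t | π t = 0}) → π s = 0) →
      D (27 + (n - 4) * (n + 9)) = ⊥ ∧
      (Function.Injective π → D (n * Nat.clog 2 (n + 2) + (2 * n - 1)) = ⊥)) :=
  TQ.joint IS.blkStmt hn hnil π hπ φ hφ
    { e := 1, T := T, smul_mul := fun c a b => smul_mul_assoc c a b, one := one_mul, assoc := hT,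
      cubic := fun b => sub_eq_zero.2 (hcubic b) } (f : S →+ B) (map_mul f) D hD0 hDs

end Pool.Agent.Results.MP_e16c79_al.ImagesCubic
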