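import Pool.Agent.H.MP_e16c79_al.N4.Final4

/-!
# Jordan rings in which all fourth powers vanish are solvable
-/

namespace Pool.Agent.Results.MP_e16c79_al.IndexFour

/-- Let `A` be a commutative Jordan ring whose additive group has no elements of order `2` or `3`
(for example a torsion-free one, or one of prime characteristic `p > 4`). If the fourth power of every
element is zero, then `A` is solvable: the derived series `D 0 = A`, `D (i + 1) = D i * D i` satisfies
`D 27 = 0`. -/
theorem result (A : Type*) [NonUnitalNonAssocCommRing A] [IsCommJordan A]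
    (h2 : ∀ a : A, 2 • a = 0 → a = 0) (h3 : ∀ a : A, 3 • a = 0 → a = 0)
    (h4 : ∀ a : A, a * (a * (a * a)) = 0) (D : ℕ → AddSubgroup A) (h0 : D 0 = ⊤)
    (hD : ∀ i, D (i + 1) = AddSubgroup.closure {x : A | ∃ a ∈ D i, ∃ b ∈ D i, x = a * b}) :
    D 27 = ⊥ :=
  Pool.Agent.H.MP_e16c79_al.N4.solv_four_seq h2 h3 h4 D h0 hD

end Pool.Agent.Results.MP_e16c79_al.IndexFour
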